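import Pool.Agent.H.MP_21b43d_ag.T.Split
import Pool.Agent.H.MP_21b43d_ag.B.JDer
import Pool.Agent.H.MP_21b43d_ag.B.Supp

/-!
# M21: the theorem on triangles for a family of opens which does not cover `X`
-/

open CategoryTheory CategoryTheory.Limits AlgebraicGeometry TopologicalSpace
open CategoryTheory.Pretriangulated

noncomputable section

namespace M21

variable {X W : Scheme.{0}} (j : W ⟶ X) [IsOpenImmersion j] {ι : Type} {U : ι → X.Opens}

theorem resF_appLE {V : X.Opens} {V1 V2 : W.Opens} (e : V1 ≤ j ⁻¹ᵁ V) (h : V2 ≤ V1)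
    (a : Γ(X, V)) : resF h (j.appLE V V1 e a) = j.appLE V V2 (h.trans e) a := by
  have h1 := Scheme.Hom.appLE_map j e (homOfLE h).op
  exact congrArg (fun f => f.hom a) h1

theorem appLE_resF {V V' : X.Opens} {V1 : W.Opens} (h : V' ≤ V) (e : V1 ≤ j ⁻¹ᵁ V')
    (a : Γ(X, V)) : j.appLE V' V1 e (resF h a) = j.appLE V V1 (e.trans (j.preimage_mono h)) a := by
  have h1 := Scheme.Hom.map_appLE j e (homOfLE h).op
  exact congrArg (fun f => f.hom a) h1

/-- The restriction of a cocycle to an open subscheme. -/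
def Cocycle.restr (c : Cocycle U) : Cocycle (fun i => j ⁻¹ᵁ U i) where
  c i k := j.appLE (U i ⊓ U k) (j ⁻¹ᵁ U i ⊓ j ⁻¹ᵁ U k) le_rfl (c.c i k)
  add i k l V h1 h2 h3 := by
    have e : V ≤ j ⁻¹ᵁ (U i ⊓ U k ⊓ U l) :=
      le_inf (le_inf (h1.trans inf_le_left) (h1.trans inf_le_right)) (h2.trans inf_le_right)
    have a1 : (U i ⊓ U k ⊓ U l : X.Opens) ≤ U i ⊓ U k := inf_le_left
    have a2 : (U i ⊓ U k ⊓ U l : X.Opens) ≤ U k ⊓ U l :=
      le_inf (inf_le_left.trans inf_le_right) inf_le_right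
    have a3 : (U i ⊓ U k ⊓ U l : X.Opens) ≤ U i ⊓ U l :=
      le_inf (inf_le_left.trans inf_le_left) inf_le_right
    have b := congrArg (j.appLE _ V e) (c.add i k l _ a1 a2 a3)
    have e1 := appLE_resF j a1 e (c.c i k)
    have e2 := appLE_resF j a2 e (c.c k l)
    have e3 := appLE_resF j a3 e (c.c i l)
    have b2 : j.appLE _ V e (resF a1 (c.c i k)) + j.appLE _ V e (resF a2 (c.c k l)) =
        j.appLE _ V e (resF a3 (c.c i l)) := (map_add _ _ _).symm.trans b
    rw [e1, e2, e3] at b2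
    rw [resF_appLE, resF_appLE, resF_appLE]
    exact b2

section lend

variable {j} {M : X.Modules}

theorem le_image_preimage {V : X.Opens} (hV : V ≤ j.opensRange) : V ≤ j ''ᵁ (j ⁻¹ᵁ V) := by
  intro x hx
  obtain ⟨w, rfl⟩ := hV hx
  exact ⟨w, hx, rfl⟩

/-- a local endomorphism of the restriction gives a local endomorphism -/
def lendOfRestr {V0 : X.Opens} (h0 : V0 ≤ j.opensRange) (β : LEnd (M.restrict j) (j ⁻¹ᵁ V0)) :
    LEnd M V0 where
  f V hV s := res M (le_image_preimage (hV.trans h0))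
    (show Γ(M, j ''ᵁ (j ⁻¹ᵁ V)) from β.f (j ⁻¹ᵁ V) (j.preimage_mono hV)
      (show Γ(M.restrict j, j ⁻¹ᵁ V) from res M (j.image_preimage_le V) s))
  add V hV s t := by
    rw [res_add]
    have h := β.add (j ⁻¹ᵁ V) (j.preimage_mono hV)
      (show Γ(M.restrict j, j ⁻¹ᵁ V) from res M (j.image_preimage_le V) s)
      (show Γ(M.restrict j, j ⁻¹ᵁ V) from res M (j.image_preimage_le V) t)
    exact (congrArg (fun t => res M (le_image_preimage (hV.trans h0))
      (show Γ(M, j ''ᵁ (j ⁻¹ᵁ V)) from t)) h).trans (res_add _ _ _)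
  smul V hV a s := by
    obtain ⟨b, hb⟩ : ∃ b : Γ(W, j ⁻¹ᵁ V),
        (j.appIso (j ⁻¹ᵁ V)).inv b = resF (j.image_preimage_le V) a := by
      refine ⟨(j.appIso (j ⁻¹ᵁ V)).hom (resF (j.image_preimage_le V) a), ?_⟩
      exact congrArg (fun f => f.hom (resF (j.image_preimage_le V) a))
        (j.appIso (j ⁻¹ᵁ V)).hom_inv_id
    have h1 : res M (j.image_preimage_le V) (a • s) =
        (j.appIso (j ⁻¹ᵁ V)).inv b • res M (j.image_preimage_le V) s := by
      rw [hb]
      exact res_smul _ _ _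
    have h2 := β.smul (j ⁻¹ᵁ V) (j.preimage_mono hV) b
      (show Γ(M.restrict j, j ⁻¹ᵁ V) from res M (j.image_preimage_le V) s)
    have h3 := congrArg (fun t => β.f (j ⁻¹ᵁ V) (j.preimage_mono hV)
      (show Γ(M.restrict j, j ⁻¹ᵁ V) from t)) h1
    have h4 := h3.trans h2
    refine (congrArg (fun t => res M (le_image_preimage (hV.trans h0))
      (show Γ(M, j ''ᵁ (j ⁻¹ᵁ V)) from t)) h4).trans ?_
    refine (res_smul (le_image_preimage (hV.trans h0)) ((j.appIso (j ⁻¹ᵁ V)).inv b) _).trans ?_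
    rw [hb]
    have h5 : X.presheaf.map (homOfLE (le_image_preimage (hV.trans h0))).op
        (resF (j.image_preimage_le V) a) = a := by
      refine (resF_resF _ _ a).trans ?_
      show X.presheaf.map (homOfLE (le_refl V)).op a = a
      have : (homOfLE (le_refl V)).op = 𝟙 _ := rfl
      rw [this, CategoryTheory.Functor.map_id]
      rfl
    rw [h5]
  res V V' hV hV' s := by
    have h1 : res M (j.image_preimage_le V') (res M hV' s) =
        res M (j.image_mono (j.preimage_mono hV')) (res M (j.image_preimage_le V) s) := by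
      rw [res_res, res_res]
    have h2 := β.res (j ⁻¹ᵁ V) (j ⁻¹ᵁ V') (j.preimage_mono hV) (j.preimage_mono hV')
      (show Γ(M.restrict j, j ⁻¹ᵁ V) from res M (j.image_preimage_le V) s)
    have h3 := congrArg (fun t => β.f (j ⁻¹ᵁ V') (j.preimage_mono (hV'.trans hV))
      (show Γ(M.restrict j, j ⁻¹ᵁ V') from t)) h1
    have h4 := h3.trans h2
    refine (congrArg (fun t => res M (le_image_preimage ((hV'.trans hV).trans h0))
      (show Γ(M, j ''ᵁ (j ⁻¹ᵁ V')) from t)) h4).trans ?_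
    refine (res_res (M := M) (j.image_mono (j.preimage_mono hV'))
      (le_image_preimage ((hV'.trans hV).trans h0)) _).trans ?_
    exact (res_res (M := M) (le_image_preimage (hV.trans h0)) hV' _).symm

theorem splits_of_restr (c : Cocycle U) (hU : ∀ i, U i ≤ j.opensRange)
    (h : Splits (c.restr j) (M.restrict j)) : Splits c M := by
  obtain ⟨β, hβ⟩ := h
  refine ⟨fun i => lendOfRestr (hU i) (β i), fun i k V hi hk s => ?_⟩
  have h1 := hβ i k (j ⁻¹ᵁ V) (j.preimage_mono hi) (j.preimage_mono hk)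
    (show Γ(M.restrict j, j ⁻¹ᵁ V) from res M (j.image_preimage_le V) s)
  have e : j ⁻¹ᵁ V ≤ j ⁻¹ᵁ (U i ⊓ U k) := j.preimage_mono (le_inf hi hk)
  have e2 : j ''ᵁ (j ⁻¹ᵁ V) ≤ U i ⊓ U k := (j.image_preimage_le V).trans (le_inf hi hk)
  have h2 : (j.appIso (j ⁻¹ᵁ V)).inv (resF (le_inf (j.preimage_mono hi) (j.preimage_mono hk))
      ((c.restr j).c i k)) = resF e2 (c.c i k) := by
    have h3 : resF (le_inf (j.preimage_mono hi) (j.preimage_mono hk)) ((c.restr j).c i k) =
        j.appLE (U i ⊓ U k) (j ⁻¹ᵁ V) e (c.c i k) := resF_appLE j _ _ _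
    rw [h3]
    have h4 := Scheme.Hom.appLE_appIso_inv j e
    exact congrArg (fun f => f.hom (c.c i k)) h4
  have h5 : res M (le_image_preimage (hi.trans (hU i)))
      (show Γ(M, j ''ᵁ (j ⁻¹ᵁ V)) from
        (β i).f (j ⁻¹ᵁ V) (j.preimage_mono hi)
          (show Γ(M.restrict j, j ⁻¹ᵁ V) from res M (j.image_preimage_le V) s) -
        (β k).f (j ⁻¹ᵁ V) (j.preimage_mono hk)
          (show Γ(M.restrict j, j ⁻¹ᵁ V) from res M (j.image_preimage_le V) s)) =
      resF (le_inf hi hk) (c.c i k) • s := by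
    refine (congrArg (fun t => res M (le_image_preimage (hi.trans (hU i)))
      (show Γ(M, j ''ᵁ (j ⁻¹ᵁ V)) from t)) h1).trans ?_
    refine (res_smul (M := M) (le_image_preimage (hi.trans (hU i)))
      ((j.appIso (j ⁻¹ᵁ V)).inv (resF (le_inf (j.preimage_mono hi) (j.preimage_mono hk))
      ((c.restr j).c i k))) (res M (j.image_preimage_le V) s)).trans ?_
    rw [h2, res_res, res_self]
    have h6 : X.presheaf.map (homOfLE (le_image_preimage (hi.trans (hU i)))).op
        (resF e2 (c.c i k)) = resF (le_inf hi hk) (c.c i k) := resF_resF _ _ _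
    rw [h6]
  refine Eq.trans ?_ h5
  exact (res_sub (M := M) (le_image_preimage (hi.trans (hU i)))
    (show Γ(M, j ''ᵁ (j ⁻¹ᵁ V)) from (β i).f (j ⁻¹ᵁ V) (j.preimage_mono hi)
      (show Γ(M.restrict j, j ⁻¹ᵁ V) from res M (j.image_preimage_le V) s))
    (show Γ(M, j ''ᵁ (j ⁻¹ᵁ V)) from (β k).f (j ⁻¹ᵁ V) (j.preimage_mono hk)
      (show Γ(M.restrict j, j ⁻¹ᵁ V) from res M (j.image_preimage_le V) s))).symm

theorem Splits.of_iso {M N : X.Modules} (c : Cocycle U) (e : M ≅ N) (h : Splits c M) :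
    Splits c N := by
  obtain ⟨β, hβ⟩ := h
  have hinv : ∀ (V : X.Opens) (s : Γ(N, V)), e.hom.app V (e.inv.app V s) = s := by
    intro V s
    exact congrArg (fun φ : N ⟶ N => φ.app V s) e.inv_hom_id
  refine ⟨fun i =>
    { f := fun V hV s => e.hom.app V ((β i).f V hV (e.inv.app V s))
      add := fun V hV s t => by rw [app_add, (β i).add, app_add]
      smul := fun V hV a s => by rw [app_smul', (β i).smul, app_smul']
      res := fun V V' hV hV' s => by rw [app_res, (β i).res, app_res] },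
    fun i k V hi hk s => ?_⟩
  show e.hom.app V ((β i).f V hi (e.inv.app V s)) - e.hom.app V ((β k).f V hk (e.inv.app V s)) = _
  rw [← app_sub, hβ, app_smul', hinv]

end lend

theorem res_bijective_of_eq (M : X.Modules) {V V' : X.Opens} (h : V' ≤ V) (e : V' = V) :
    Function.Bijective (res M h) := by
  subst e
  have h1 : res M h = id := funext fun s => res_self h s
  rw [h1]
  exact Function.bijective_id

/-- Sections of the skyscraper sheaf do not change under restriction to a smaller open which contains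
`x` if the larger one does. -/
theorem sky_res_bijective (x : X) {V V' : X.Opens} (h : V' ≤ V) (hx : x ∈ V → x ∈ V') :
    Function.Bijective (res (sky x) h) := by
  have h1 : (X.fromSpecResidueField x) ⁻¹ᵁ V' = (X.fromSpecResidueField x) ⁻¹ᵁ V := by
    ext w
    have hw : (X.fromSpecResidueField x) w = x := by
      have := X.range_fromSpecResidueField x
      have h2 : (X.fromSpecResidueField x) w ∈ Set.range (X.fromSpecResidueField x) := ⟨w, rfl⟩
      rw [this] at h2
      exact h2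
    constructor
    · intro hw'
      exact h hw'
    · intro hw'
      show (X.fromSpecResidueField x) w ∈ V'
      have h3 : (X.fromSpecResidueField x) w ∈ V := hw'
      rw [hw] at h3 ⊢
      exact hx h3
  exact res_bijective_of_eq (SheafOfModules.unit (Spec (X.residueField x)).ringCatSheaf)
    ((X.fromSpecResidueField x).preimage_mono h) h1

/-- The theorem on triangles on `X`, for an open immersion. -/
theorem splits_open_aux (c : Cocycle U) (hUW : ∀ i, U i ≤ j.opensRange)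
    (hcov : ∀ w : W, ∃ i, w ∈ j ⁻¹ᵁ U i) (T : Triangle (DMod X))
    (hT : T ∈ distTriang (DMod X)) (h : ∀ f : T.obj₁ ⟶ T.obj₃, f = 0) (M : X.Modules)
    (e : T.obj₂ ≅ (DerivedCategory.singleFunctor X.Modules 0).obj M) (i0 : ι)
    (hM : ∀ V : W.Opens, Function.Bijective
      (res (M.restrict j) (inf_le_left : V ⊓ j ⁻¹ᵁ U i0 ≤ V)))
    (h1 : ∀ n : ℤ, SuppIn j (hh n T.obj₁)) (h3 : ∀ n : ℤ, SuppIn j (hh n T.obj₃)) (m : ℤ) :
    Splits c (hh m T.obj₁) ∧ Splits c (hh m T.obj₃) := by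
  have hT' : (Dres j).mapTriangle.obj T ∈ distTriang (DMod W) := (Dres j).map_distinguished T hT
  have hz : ∀ f : ((Dres j).mapTriangle.obj T).obj₁ ⟶ ((Dres j).mapTriangle.obj T).obj₃,
      f = 0 := fun f => hom_zero_restrict j h1 h3 h f
  let e' : ((Dres j).mapTriangle.obj T).obj₂ ≅
      (DerivedCategory.singleFunctor W.Modules 0).obj (M.restrict j) :=
    (Dres j).mapIso e ≪≫
      ((Scheme.Modules.restrictFunctor j).mapDerivedCategorySingleFunctor 0).app M
  have hs := splits_of_triangle (c.restr j) hcov _ hT' hz (M.restrict j) e' i0 hM m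
  let e1 : hh m ((Dres j).mapTriangle.obj T).obj₁ ≅ (hh m T.obj₁).restrict j :=
    hhRes j T.obj₁ m
  let e3 : hh m ((Dres j).mapTriangle.obj T).obj₃ ≅ (hh m T.obj₃).restrict j :=
    hhRes j T.obj₃ m
  exact ⟨splits_of_restr c hUW (Splits.of_iso (c.restr j) e1 hs.1),
    splits_of_restr c hUW (Splits.of_iso (c.restr j) e3 hs.2)⟩

theorem sky_restr_bijective (x : X) (V0 : X.Opens) (hx : x ∈ V0) (V : W.Opens) :
    Function.Bijective (res ((sky x).restrict j) (inf_le_left : V ⊓ j ⁻¹ᵁ V0 ≤ V)) := by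
  refine sky_res_bijective x (j.image_mono inf_le_left) ?_
  rintro ⟨w, hw, hwx⟩
  refine ⟨w, ⟨hw, ?_⟩, hwx⟩
  have hwx' : j w = x := hwx
  show j w ∈ V0
  rw [hwx']
  exact hx

theorem suppIn_of_supp (hU : ∀ i, U i ≤ j.opensRange) {A : DMod X}
    (hA : supp A ⊆ ⋃ i, (U i : Set X)) (n : ℤ) : SuppIn j (hh n A) := by
  rw [suppIn_iff]
  intro y hy
  by_contra hc
  obtain ⟨i, hi⟩ := Set.mem_iUnion.1 (hA ⟨n, hc⟩)
  exact hy (hU i hi)

/-- **The theorem on triangles.** Let `A → 𝒪_x → B → A[1]` be a distinguished triangle without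
nonzero morphisms `A → B`, with `A` and `B` supported in the union of the `U i`, `x ∈ U i0`. Then the
cocycle `c` splits on all cohomology sheaves of `A` and `B`. -/
theorem splits_open (c : Cocycle U) (T : Triangle (DMod X))
    (hT : T ∈ distTriang (DMod X)) (h : ∀ f : T.obj₁ ⟶ T.obj₃, f = 0) (x : X)
    (e : T.obj₂ ≅ skyD x) (i0 : ι) (hx : x ∈ U i0)
    (h1 : supp T.obj₁ ⊆ ⋃ i, (U i : Set X)) (h3 : supp T.obj₃ ⊆ ⋃ i, (U i : Set X)) (m : ℤ) :
    Splits c (hh m T.obj₁) ∧ Splits c (hh m T.obj₃) := by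
  obtain ⟨W0, hW0⟩ : ∃ W0 : X.Opens, W0 = iSup U := ⟨_, rfl⟩
  obtain ⟨W, j, hj, hr⟩ : ∃ (W : Scheme.{0}) (j : W ⟶ X) (_ : IsOpenImmersion j),
      j.opensRange = W0 := ⟨W0, W0.ι, inferInstance, W0.opensRange_ι⟩
  have hUW : ∀ i, U i ≤ j.opensRange := fun i => by
    rw [hr, hW0]
    exact le_iSup U i
  have hcov : ∀ w : W, ∃ i, w ∈ j ⁻¹ᵁ U i := by
    intro w
    have hw : j w ∈ iSup U := by
      rw [← hW0, ← hr]
      exact ⟨w, rfl⟩
    obtain ⟨i, hi⟩ := Opens.mem_iSup.1 hw
    exact ⟨i, hi⟩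
  exact splits_open_aux j c hUW hcov T hT h (sky x) e i0 (sky_restr_bijective j x (U i0) hx)
    (suppIn_of_supp j hUW h1) (suppIn_of_supp j hUW h3) m

end M21
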