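import Mathlib

/-!
# M21: self-extensions in a derived category

Let `T` be an exact functor with a natural exact sequence `0 → M → T M → M → 0`. We get a natural
transformation `A → A[1]` on the derived category.
-/

open CategoryTheory CategoryTheory.Limits CategoryTheory.Pretriangulated

noncomputable section

universe w v u

namespace M21

/-- A natural transformation from the identity to the shift vanishes at `T.obj₁`, `T.obj₃` if it
vanishes at `T.obj₂` and there are no nonzero morphisms `T.obj₁ ⟶ T.obj₃`. -/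
theorem nat_zero {D : Type u} [Category.{v} D] [HasZeroObject D] [HasShift D ℤ] [Preadditive D]
    [∀ n : ℤ, (shiftFunctor D n).Additive] [Pretriangulated D]
    (c : 𝟭 D ⟶ shiftFunctor D (1 : ℤ)) (T : Triangle D) (hT : T ∈ distTriang D)
    (h : ∀ f : T.obj₁ ⟶ T.obj₃, f = 0) (h0 : c.app T.obj₂ = 0) :
    c.app T.obj₁ = 0 ∧ c.app T.obj₃ = 0 := by
  constructor
  · have h1 : c.app T.obj₁ ≫ T.rotate.mor₃ = 0 := by
      have h2 := c.naturality T.mor₁
      rw [h0, comp_zero] at h2
      show c.app T.obj₁ ≫ (-T.mor₁⟦(1 : ℤ)⟧') = 0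
      rw [Preadditive.comp_neg, ← h2, neg_zero]
    obtain ⟨g, hg⟩ := Triangle.coyoneda_exact₃ T.rotate (rot_of_distTriang T hT) _ h1
    have hg0 : g = 0 := h g
    rw [hg, hg0]
    exact zero_comp
  · have h1 : T.mor₂ ≫ c.app T.obj₃ = 0 := by
      have h2 := c.naturality T.mor₂
      rw [h0, zero_comp] at h2
      exact h2
    obtain ⟨g, hg⟩ := Triangle.yoneda_exact₃ T hT _ h1
    obtain ⟨g', hg'⟩ := (shiftFunctor D (1 : ℤ)).map_surjective g
    rw [hg, ← hg', h g', Functor.map_zero, comp_zero]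

variable (C : Type u) [Category.{v} C] [Abelian C]

/-- An exact functor `T` with natural short exact sequences `0 → M → T M → M → 0`. -/
structure SelfExt where
  /-- the functor -/
  T : C ⥤ C
  add : T.Additive
  hom : T.PreservesHomology
  /-- the inclusion -/
  i : 𝟭 C ⟶ T
  /-- the projection -/
  p : T ⟶ 𝟭 C
  zero : ∀ M : C, i.app M ≫ p.app M = 0
  exact : ∀ M : C, (ShortComplex.mk (i.app M) (p.app M) (zero M)).ShortExact

namespace SelfExt

variable {C} (E : SelfExt C)

instance : E.T.Additive := E.add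
instance : E.T.PreservesHomology := E.hom

/-- the inclusion for complexes -/
def iC (K : CochainComplex C ℤ) : K ⟶ (E.T.mapHomologicalComplex (.up ℤ)).obj K where
  f n := E.i.app (K.X n)
  comm' n m _ := (E.i.naturality (K.d n m)).symm

/-- the projection for complexes -/
def pC (K : CochainComplex C ℤ) : (E.T.mapHomologicalComplex (.up ℤ)).obj K ⟶ K where
  f n := E.p.app (K.X n)
  comm' n m _ := (E.p.naturality (K.d n m)).symm

/-- the short exact sequence of complexes -/
def ses (K : CochainComplex C ℤ) : ShortComplex (CochainComplex C ℤ) :=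
  ShortComplex.mk (E.iC K) (E.pC K) (by ext n; exact E.zero (K.X n))

theorem ses_exact (K : CochainComplex C ℤ) : (E.ses K).ShortExact :=
  HomologicalComplex.shortExact_of_degreewise_shortExact _ fun n => E.exact (K.X n)

/-- functoriality of the short exact sequence -/
def sesMap {K L : CochainComplex C ℤ} (φ : K ⟶ L) : E.ses K ⟶ E.ses L where
  τ₁ := φ
  τ₂ := (E.T.mapHomologicalComplex (.up ℤ)).map φ
  τ₃ := φ
  comm₁₂ := by ext n; exact E.i.naturality (φ.f n)
  comm₂₃ := by ext n; exact E.p.naturality (φ.f n)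

variable [HasDerivedCategory.{w} C]

/-- the natural transformation on complexes -/
def τ : DerivedCategory.Q (C := C) ⟶
    DerivedCategory.Q (C := C) ⋙ shiftFunctor (DerivedCategory C) (1 : ℤ) where
  app K := DerivedCategory.triangleOfSESδ (E.ses_exact K)
  naturality K L φ :=
    (DerivedCategory.triangleOfSESδ_naturality (E.ses_exact K) (E.ses_exact L) (E.sesMap φ)).symm

/-- The natural transformation `A → A[1]` on the derived category. -/
def cc : 𝟭 (DerivedCategory C) ⟶ shiftFunctor (DerivedCategory C) (1 : ℤ) :=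
  letI : Localization.Lifting (DerivedCategory.Q (C := C))
      (HomologicalComplex.quasiIso C (ComplexShape.up ℤ)) DerivedCategory.Q
      (𝟭 (DerivedCategory C)) := ⟨Functor.rightUnitor _⟩
  letI : Localization.Lifting (DerivedCategory.Q (C := C))
      (HomologicalComplex.quasiIso C (ComplexShape.up ℤ))
      (DerivedCategory.Q (C := C) ⋙ shiftFunctor (DerivedCategory C) (1 : ℤ))
      (shiftFunctor (DerivedCategory C) (1 : ℤ)) := ⟨Iso.refl _⟩
  Localization.liftNatTrans (DerivedCategory.Q (C := C))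
    (HomologicalComplex.quasiIso C (ComplexShape.up ℤ)) _ _ _ _ E.τ

theorem cc_app (K : CochainComplex C ℤ) :
    E.cc.app (DerivedCategory.Q.obj K) = DerivedCategory.triangleOfSESδ (E.ses_exact K) := by
  unfold cc
  rw [Localization.liftNatTrans_app]
  show 𝟙 _ ≫ _ ≫ 𝟙 _ = _
  rw [Category.comp_id, Category.id_comp]
  rfl

/-- The distinguished triangle `K → T K → K → K[1]`. -/
theorem dist (K : CochainComplex C ℤ) :
    Triangle.mk (DerivedCategory.Q.map (E.iC K)) (DerivedCategory.Q.map (E.pC K))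
      (E.cc.app (DerivedCategory.Q.obj K)) ∈ distTriang (DerivedCategory C) := by
  rw [cc_app]
  exact DerivedCategory.triangleOfSES_distinguished (E.ses_exact K)

theorem cc_iso {A B : DerivedCategory C} (e : A ≅ B) (h : E.cc.app A = 0) : E.cc.app B = 0 := by
  have h1 := E.cc.naturality e.hom
  rw [h, zero_comp] at h1
  have h2 : e.hom ≫ E.cc.app B = 0 := h1
  rw [← cancel_epi e.hom, h2, comp_zero]

/-- If the projection has a section on complexes, the class vanishes. -/
theorem cc_zero_of_section (K : CochainComplex C ℤ)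
    (s : K ⟶ (E.T.mapHomologicalComplex (.up ℤ)).obj K) (hs : s ≫ E.pC K = 𝟙 K) :
    E.cc.app (DerivedCategory.Q.obj K) = 0 := by
  have h1 : DerivedCategory.Q.map (E.pC K) ≫ E.cc.app (DerivedCategory.Q.obj K) = 0 :=
    comp_distTriang_mor_zero₂₃ _ (E.dist K)
  have h2 : DerivedCategory.Q.map s ≫ DerivedCategory.Q.map (E.pC K) = 𝟙 _ := by
    rw [← Functor.map_comp, hs, CategoryTheory.Functor.map_id]
  have h3 : 𝟙 (DerivedCategory.Q.obj K) ≫ E.cc.app (DerivedCategory.Q.obj K) = 0 := by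
    rw [← h2, Category.assoc, h1, comp_zero]
  exact (Category.id_comp _).symm.trans h3

/-- If the extension of `M` splits, the class of the complex `M` vanishes. -/
theorem cc_single (M : C) (s : M ⟶ E.T.obj M) (hs : s ≫ E.p.app M = 𝟙 M) :
    E.cc.app ((DerivedCategory.singleFunctor C 0).obj M) = 0 := by
  let K := (CochainComplex.singleFunctor C 0).obj M
  let e : K.X 0 ≅ M := HomologicalComplex.singleObjXSelf (.up ℤ) 0 M
  let φ : M ⟶ ((E.T.mapHomologicalComplex (.up ℤ)).obj K).X 0 := s ≫ E.T.map e.inv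
  have hz : ∀ k : ℤ, (ComplexShape.up ℤ).Rel 0 k → φ ≫
      ((E.T.mapHomologicalComplex (.up ℤ)).obj K).d 0 k = 0 := by
    intro k hk
    have h1 : K.d 0 k = 0 := HomologicalComplex.single_obj_d _ _ _ _ _
    show (s ≫ E.T.map e.inv) ≫ E.T.map (K.d 0 k) = 0
    rw [h1, Functor.map_zero, comp_zero]
  refine E.cc_zero_of_section K (HomologicalComplex.mkHomFromSingle φ hz) ?_
  apply HomologicalComplex.from_single_hom_ext
  have h1 : E.T.map e.inv ≫ E.p.app (K.X 0) = E.p.app M ≫ e.inv := E.p.naturality e.inv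
  have h2 : (s ≫ E.T.map e.inv) ≫ E.p.app (K.X 0) = e.inv := by
    rw [Category.assoc, h1, ← Category.assoc, hs]
    exact Category.id_comp _
  have h3 : (HomologicalComplex.mkHomFromSingle φ hz).f 0 = e.hom ≫ φ :=
    HomologicalComplex.mkHomFromSingle_f _ _
  have h4 : (e.hom ≫ s ≫ E.T.map e.inv) ≫ E.p.app (K.X 0) = 𝟙 (K.X 0) :=
    (Category.assoc _ _ _).trans ((congrArg (e.hom ≫ ·) h2).trans e.hom_inv_id)
  exact (congrArg (· ≫ E.p.app (K.X 0)) h3).trans h4

omit [HasDerivedCategory.{w} C] in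
theorem comp_aux {D : Type u} [Category.{v} D] {a b c d : D} (i : a ⟶ b) (g : b ⟶ c) (q : c ⟶ b)
    (F : b ⟶ a) (G : c ⟶ d) (h : d ⟶ a) (h1 : g ≫ q = 𝟙 b) (h3 : q ≫ F = G ≫ h)
    (h5 : i ≫ F = 𝟙 a) : (i ≫ g ≫ G) ≫ h = 𝟙 a := by
  rw [Category.assoc, Category.assoc, ← h3, reassoc_of% h1, h5]

omit [HasDerivedCategory.{w} C] in
theorem section_iso {M N : C} (e : M ≅ N) (s : M ⟶ E.T.obj M) (hs : s ≫ E.p.app M = 𝟙 M) :
    ∃ s' : N ⟶ E.T.obj N, s' ≫ E.p.app N = 𝟙 N := by
  refine ⟨e.inv ≫ s ≫ E.T.map e.hom, ?_⟩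
  have h4 : E.T.map e.hom ≫ E.p.app N = E.p.app M ≫ e.hom := E.p.naturality e.hom
  rw [Category.assoc, Category.assoc, h4, ← Category.assoc s, hs]
  exact (congrArg (e.inv ≫ ·) (Category.id_comp _)).trans e.inv_hom_id

omit [HasDerivedCategory.{w} C] in
theorem section_homology (K : CochainComplex C ℤ) (m : ℤ)
    (r : K.homology m ⟶ ((E.T.mapHomologicalComplex (.up ℤ)).obj K).homology m)
    (hr : r ≫ HomologicalComplex.homologyMap (E.pC K) m = 𝟙 _) :
    ∃ s : K.homology m ⟶ E.T.obj (K.homology m), s ≫ E.p.app (K.homology m) = 𝟙 _ := by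
  have h := NatTrans.app_homology E.p (K.sc m)
  obtain ⟨A, hA⟩ : ∃ A, A = (K.sc m).mapHomologyIso E.T := ⟨_, rfl⟩
  obtain ⟨B, hB⟩ : ∃ B, B = (K.sc m).mapHomologyIso (𝟭 C) := ⟨_, rfl⟩
  rw [← hA, ← hB] at h
  let r' : ((K.sc m).map (𝟭 C)).homology ⟶ ((K.sc m).map E.T).homology := r
  have hr' : r' ≫ ShortComplex.homologyMap ((K.sc m).mapNatTrans E.p) = 𝟙 _ := hr
  refine ⟨B.inv ≫ r' ≫ A.hom, ?_⟩
  have h2 : (B.inv ≫ r' ≫ A.hom) ≫ E.p.app (K.sc m).homology = 𝟙 _ := by
    rw [h]
    simp only [Category.assoc, Iso.hom_inv_id_assoc]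
    rw [reassoc_of% hr', B.inv_hom_id]
  exact h2

/-- If the class of `A` vanishes, the extensions of the cohomology objects split. -/
theorem section_of_cc_zero (A : DerivedCategory C) (h : E.cc.app A = 0) (m : ℤ) :
    ∃ s : (DerivedCategory.homologyFunctor C m).obj A ⟶
      E.T.obj ((DerivedCategory.homologyFunctor C m).obj A), s ≫ E.p.app _ = 𝟙 _ := by
  obtain ⟨K, ⟨e⟩⟩ : ∃ K : CochainComplex C ℤ, Nonempty (DerivedCategory.Q.obj K ≅ A) :=
    ⟨_, ⟨DerivedCategory.Q.objObjPreimageIso A⟩⟩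
  have h0 := E.cc_iso e.symm h
  obtain ⟨g, hg⟩ := Triangle.coyoneda_exact₃ _ (E.dist K) (𝟙 (DerivedCategory.Q.obj K)) (by
    show 𝟙 _ ≫ E.cc.app (DerivedCategory.Q.obj K) = 0
    rw [h0, comp_zero])
  let F := DerivedCategory.homologyFunctorFactors C m
  have h1 : (DerivedCategory.homologyFunctor C m).map g ≫
      (DerivedCategory.homologyFunctor C m).map (DerivedCategory.Q.map (E.pC K)) = 𝟙 _ := by
    rw [← Functor.map_comp]
    have h2 : g ≫ DerivedCategory.Q.map (E.pC K) = 𝟙 _ := hg.symm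
    rw [h2, CategoryTheory.Functor.map_id]
  have h3 : (DerivedCategory.homologyFunctor C m).map (DerivedCategory.Q.map (E.pC K)) ≫
      F.hom.app K = F.hom.app _ ≫ HomologicalComplex.homologyMap (E.pC K) m :=
    F.hom.naturality (E.pC K)
  obtain ⟨s, hs⟩ := E.section_homology K m
    (F.inv.app K ≫ (DerivedCategory.homologyFunctor C m).map g ≫ F.hom.app _)
    (comp_aux _ _ _ _ _ _ h1 h3 (F.inv_hom_id_app K))
  let ε : K.homology m ≅ (DerivedCategory.homologyFunctor C m).obj A :=
    (F.app K).symm ≪≫ (DerivedCategory.homologyFunctor C m).mapIso e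
  exact E.section_iso ε s hs

end SelfExt

end M21
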