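import Pool.Agent.H.MP_21b43d_ag.T.Tc2

/-!
# M21: splittings of `T_c M → M`; vanishing of the class for sheaves like skyscrapers; the theorem
on triangles
-/

open CategoryTheory CategoryTheory.Limits AlgebraicGeometry TopologicalSpace
open CategoryTheory.Pretriangulated

noncomputable section

namespace M21

variable {X : Scheme.{0}} {ι : Type} {U : ι → X.Opens} (c : Cocycle U)

/-- A splitting of `T_c M → M` gives local endomorphisms `α i` with `α i - α j = c i j`. -/
theorem splits_of_section (M : X.Modules) (s : M ⟶ TcObj c M)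
    (hs : s ≫ (tcP c).app M = 𝟙 M) : Splits c M := by
  have hF : ∀ (V : X.Opens) (m : Γ(M, V)), tcFst (s.app V m) = m := by
    intro V m
    have h := congrArg (fun φ : M ⟶ M => φ.app V m) hs
    exact h
  refine ⟨fun i =>
    { f := fun V hV m => res M (le_inf le_rfl hV) (tcSnd (s.app V m) i)
      add := fun V hV m n => ?_
      smul := fun V hV a m => ?_
      res := fun V W hV hW m => ?_ }, fun i j V hi hj m => ?_⟩
  · rw [app_add, tcSnd_add, res_add]
  · rw [app_smul', tcSnd_smul, res_smul]
    have e : X.presheaf.map (homOfLE (le_inf le_rfl hV : V ≤ V ⊓ U i)).op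
        (resF (inf_le_left : V ⊓ U i ≤ V) a) = a := by
      refine (resF_resF _ _ a).trans ?_
      show X.presheaf.map (homOfLE (le_refl V)).op a = a
      have : (homOfLE (le_refl V)).op = 𝟙 _ := rfl
      rw [this, CategoryTheory.Functor.map_id]
      rfl
    rw [e]
  · rw [app_res, tcSnd_res, res_res, res_res]
  · have h := tc_rel (s.app V m) i j V (le_inf le_rfl hi) (le_inf le_rfl hj) (le_inf hi hj)
    rw [hF, res_self] at h
    exact h

/-- The class of a sheaf `M` such that `M(V) → M(V ∩ U i0)` is always bijective vanishes. -/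
theorem exists_section (M : X.Modules) (i0 : ι)
    (hM : ∀ V : X.Opens, Function.Bijective (res M (inf_le_left : V ⊓ U i0 ≤ V))) :
    ∃ s : M ⟶ TcObj c M, s ≫ (tcP c).app M = 𝟙 M := by
  -- `n V i m` is the section over `V ∩ U i` with restriction `c i i0 • m`
  have hex : ∀ (V : X.Opens) (i : ι) (m : Γ(M, V)), ∃ n : Γ(M, V ⊓ U i),
      res M (inf_le_left : (V ⊓ U i) ⊓ U i0 ≤ V ⊓ U i) n =
        resF (le_inf (inf_le_left.trans inf_le_right) inf_le_right :
          (V ⊓ U i) ⊓ U i0 ≤ U i ⊓ U i0) (c.c i i0) •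
          res M (inf_le_left.trans inf_le_left) m := fun V i m => (hM (V ⊓ U i)).2 _
  choose n hn using hex
  -- restriction of the defining relation
  have hn' : ∀ (V : X.Opens) (i : ι) (m : Γ(M, V)) (W : X.Opens) (h1 : W ≤ V ⊓ U i)
      (h2 : W ≤ U i ⊓ U i0) (h3 : W ≤ V), res M h1 (n V i m) =
        resF h2 (c.c i i0) • res M h3 m := by
    intro V i m W h1 h2 h3
    have h := congrArg (res M (le_inf h1 (h2.trans inf_le_right) : W ≤ (V ⊓ U i) ⊓ U i0))
      (hn V i m)
    rw [res_res, res_smul, res_res] at h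
    refine h.trans ?_
    exact congrArg (· • res M h3 m) (resF_resF _ _ _)
  have hinj : ∀ {W : X.Opens} {a b : Γ(M, W)},
      res M (inf_le_left : W ⊓ U i0 ≤ W) a = res M inf_le_left b → a = b := fun h => (hM _).1 h
  refine ⟨mkHom (M := M) (N := TcObj c M) (fun V m => tcMk c m (fun i => n V i m) ?_) ?_ ?_ ?_, ?_⟩
  · intro i j W hi hj h
    apply hinj
    rw [res_sub, res_res, res_res, res_smul, res_res]
    rw [hn' V i m _ _ (le_inf (inf_le_left.trans (hi.trans inf_le_right)) inf_le_right)
      (inf_le_left.trans (hi.trans inf_le_left)),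
      hn' V j m _ _ (le_inf (inf_le_left.trans (hj.trans inf_le_right)) inf_le_right)
      (inf_le_left.trans (hi.trans inf_le_left)), ← sub_smul]
    have hadd := c.add i j i0 (W ⊓ U i0) (inf_le_left.trans h)
      (le_inf (inf_le_left.trans (hj.trans inf_le_right)) inf_le_right)
      (le_inf (inf_le_left.trans (hi.trans inf_le_right)) inf_le_right)
    rw [← hadd, add_sub_cancel_right]
    exact congrArg (fun a : Γ(X, W ⊓ U i0) =>
      a • res M (inf_le_left.trans (hi.trans inf_le_left)) m)
      (resF_resF h inf_le_left (c.c i j)).symm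
  · intro V a b
    refine tc_ext rfl fun i => hinj ?_
    show res M _ (n V i (a + b)) = res M _ (n V i a + n V i b)
    rw [res_add, hn, hn, hn, res_add, smul_add]
  · intro V r m
    refine tc_ext rfl fun i => hinj ?_
    show res M _ (n V i (r • m)) = res M _ (resF (inf_le_left : V ⊓ U i ≤ V) r • n V i m)
    have e : X.presheaf.map (homOfLE (inf_le_left : (V ⊓ U i) ⊓ U i0 ≤ V ⊓ U i)).op
        (resF (inf_le_left : V ⊓ U i ≤ V) r) = resF (inf_le_left.trans inf_le_left) r :=
      resF_resF _ _ _
    rw [hn, res_smul, res_smul, hn, e, smul_comm]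
  · intro V W h m
    refine tc_ext rfl fun i => hinj ?_
    show res M _ (n W i (res M h m)) = res M _ (res M (inf_le_inf_right (U i) h) (n V i m))
    rw [hn, res_res, res_res, hn' V i m _ _
      (le_inf (inf_le_left.trans inf_le_right) inf_le_right)
      ((inf_le_left.trans inf_le_left).trans h)]
  · exact hom_ext_app fun V m => rfl

/-- `T_c` and a distinguished triangle `A → O → B → A[1]` without nonzero morphisms `A → B`, such
that the class of `O` vanishes. -/
theorem splits_of_triangle (hU : ∀ x : X, ∃ i, x ∈ U i) (T : Triangle (DMod X))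
    (hT : T ∈ distTriang (DMod X)) (h : ∀ f : T.obj₁ ⟶ T.obj₃, f = 0) (M : X.Modules)
    (e : T.obj₂ ≅ (DerivedCategory.singleFunctor X.Modules 0).obj M) (i0 : ι)
    (hM : ∀ V : X.Opens, Function.Bijective (res M (inf_le_left : V ⊓ U i0 ≤ V))) (m : ℤ) :
    Splits c (hh m T.obj₁) ∧ Splits c (hh m T.obj₃) := by
  obtain ⟨s, hs⟩ := exists_section c M i0 hM
  have h0 : (tcExt c hU).cc.app ((DerivedCategory.singleFunctor X.Modules 0).obj M) = 0 :=
    (tcExt c hU).cc_single M s hs
  have h1 := (tcExt c hU).cc_iso e.symm h0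
  obtain ⟨h2, h3⟩ := nat_zero (tcExt c hU).cc T hT h h1
  obtain ⟨s1, hs1⟩ := (tcExt c hU).section_of_cc_zero _ h2 m
  obtain ⟨s3, hs3⟩ := (tcExt c hU).section_of_cc_zero _ h3 m
  exact ⟨splits_of_section c _ s1 hs1, splits_of_section c _ s3 hs3⟩

end M21
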