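import Pool.Agent.H.MP_21b43d_ag.Mk

/-!
# M21: the twisted sheaf `T_c M` of a cocycle `c` (definition)
`T_c M (V) = {(m, (n_i)) : m ∈ M(V), n_i ∈ M(V ∩ U_i), n_i - n_j = c_ij m}`.
-/

open CategoryTheory CategoryTheory.Limits AlgebraicGeometry TopologicalSpace

noncomputable section

namespace M21

variable {X : Scheme.{0}} {ι : Type}

variable {U : ι → X.Opens}

/-- sections of `T_c M` -/
def TcSec (c : Cocycle U) (M : X.Modules) (V : X.Opens) :
    AddSubgroup (Γ(M, V) × ∀ i, Γ(M, V ⊓ U i)) where
  carrier := {p | ∀ (i j : ι) (W : X.Opens) (hi : W ≤ V ⊓ U i) (hj : W ≤ V ⊓ U j)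
    (h : W ≤ U i ⊓ U j),
    res M hi (p.2 i) - res M hj (p.2 j) = resF h (c.c i j) • res M (hi.trans inf_le_left) p.1}
  zero_mem' := by
    intro i j W hi hj h
    simp only [Prod.snd_zero, Prod.fst_zero, Pi.zero_apply, res_zero, sub_zero, smul_zero]
  add_mem' := by
    intro a b ha hb i j W hi hj h
    have h1 := ha i j W hi hj h
    have h2 := hb i j W hi hj h
    simp only [Prod.snd_add, Prod.fst_add, Pi.add_apply, res_add, smul_add] at *
    rw [← h1, ← h2]
    abel
  neg_mem' := by
    intro a ha i j W hi hj h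
    have h1 := ha i j W hi hj h
    have h2 : ∀ {V W : X.Opens} (h : W ≤ V) (s : Γ(M, V)), res M h (-s) = - res M h s :=
      fun h s => map_neg _ _
    simp only [Prod.snd_neg, Prod.fst_neg, Pi.neg_apply, h2, smul_neg] at *
    rw [← h1]
    abel

instance (c : Cocycle U) (M : X.Modules) (V : X.Opens) : SMul Γ(X, V) (TcSec c M V) where
  smul a p := ⟨(a • p.1.1, fun i => resF (inf_le_left : V ⊓ U i ≤ V) a • p.1.2 i), by
    intro i j W hi hj h
    have h1 := p.2 i j W hi hj h
    simp only [res_smul, resF_resF]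
    rw [← smul_sub, h1, smul_comm]⟩

instance (c : Cocycle U) (M : X.Modules) (V : X.Opens) : Module Γ(X, V) (TcSec c M V) where
  one_smul p := by
    apply Subtype.ext
    refine Prod.ext (one_smul _ _) (funext fun i => ?_)
    change resF _ (1 : Γ(X, V)) • p.1.2 i = _
    simp [resF]
  mul_smul a b p := by
    apply Subtype.ext
    refine Prod.ext (mul_smul _ _ _) (funext fun i => ?_)
    change resF _ (a * b) • p.1.2 i = resF _ a • resF _ b • p.1.2 i
    simp [resF, mul_smul]
  smul_zero a := by
    apply Subtype.ext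
    refine Prod.ext (smul_zero _) (funext fun i => ?_)
    exact smul_zero _
  smul_add a p q := by
    apply Subtype.ext
    refine Prod.ext (smul_add _ _ _) (funext fun i => ?_)
    exact smul_add _ _ _
  add_smul a b p := by
    apply Subtype.ext
    refine Prod.ext (add_smul _ _ _) (funext fun i => ?_)
    change resF (inf_le_left : V ⊓ U i ≤ V) (a + b) • p.1.2 i =
      resF (inf_le_left : V ⊓ U i ≤ V) a • p.1.2 i + resF (inf_le_left : V ⊓ U i ≤ V) b • p.1.2 i
    simp [resF, add_smul]
  zero_smul p := by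
    apply Subtype.ext
    refine Prod.ext (zero_smul _ _) (funext fun i => ?_)
    change resF (inf_le_left : V ⊓ U i ≤ V) (0 : Γ(X, V)) • p.1.2 i = 0
    simp [resF]

/-- restriction of sections of `T_c M` -/
def TcRes (c : Cocycle U) (M : X.Modules) {V W : X.Opens} (h : W ≤ V) (p : TcSec c M V) :
    TcSec c M W :=
  ⟨(res M h p.1.1, fun i => res M (inf_le_inf_right (U i) h) (p.1.2 i)), by
    intro i j W' hi hj h'
    have h1 := p.2 i j W' (hi.trans (inf_le_inf_right _ h)) (hj.trans (inf_le_inf_right _ h)) h'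
    simp only [res_res]
    exact h1⟩

/-- locality for `T_c M`.  Proof: `Subtype.ext`, `Prod.ext`, `funext`; for the first component
`sec_ext M`; for the component `i`, at `x ∈ V ⊓ U i` use the open `W ⊓ U i` where `W` is given
at `x`, and the `i`-th component of the hypothesis. -/
theorem tc_loc (c : Cocycle U) (M : X.Modules) {V : X.Opens} (p q : TcSec c M V)
    (h : ∀ x ∈ V, ∃ (W : X.Opens) (h : W ≤ V), x ∈ W ∧ TcRes c M h p = TcRes c M h q) :
    p = q := by
  apply Subtype.ext
  refine Prod.ext (sec_ext M fun x hx => ?_) (funext fun i => sec_ext M fun x hx => ?_)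
  · obtain ⟨W, hW, hxW, e⟩ := h x hx
    exact ⟨W, hW, hxW, congrArg (fun t => t.1.1) e⟩
  · obtain ⟨W, hW, hxW, e⟩ := h x hx.1
    exact ⟨W ⊓ U i, inf_le_inf_right _ hW, ⟨hxW, hx.2⟩,
      congrFun (congrArg (fun t => t.1.2) e) i⟩

/-- gluing for `T_c M`.  Proof: glue the first components (`exists_glue M`) and for every `i` the
components `(s k).1.2 i ∈ Γ(M, V k ⊓ U i)` over the cover `V k ⊓ U i` of `W ⊓ U i`
(compatibility: restrict `TcRes` of the hypothesis, `res_res`); the relation holds by `sec_ext`:
near a point `x ∈ W'` with `x ∈ V k` it is the relation of `s k`. -/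
theorem tc_glue (c : Cocycle U) (M : X.Modules) {κ : Type} (V : κ → X.Opens) (W : X.Opens)
    (hV : ∀ k, V k ≤ W) (hW : ∀ x ∈ W, ∃ k, x ∈ V k) (s : ∀ k, TcSec c M (V k))
    (h : ∀ k l, TcRes c M (inf_le_left : V k ⊓ V l ≤ V k) (s k) = TcRes c M inf_le_right (s l)) :
    ∃ t : TcSec c M W, ∀ k, TcRes c M (hV k) t = s k := by
  have hW' : W ≤ iSup V := fun x hx => Opens.mem_iSup.2 (hW x hx)
  obtain ⟨m, hm⟩ := exists_glue M V hV hW' (fun k => (s k).1.1)
    (fun k l => congrArg (fun t => t.1.1) (h k l))
  have key : ∀ i, ∃ n : Γ(M, W ⊓ U i), ∀ k,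
      res M (inf_le_inf_right (U i) (hV k)) n = (s k).1.2 i := by
    intro i
    refine exists_glue M (fun k => V k ⊓ U i) (fun k => inf_le_inf_right _ (hV k)) ?_
      (fun k => (s k).1.2 i) ?_
    · intro x hx
      obtain ⟨k, hk⟩ := hW x hx.1
      exact Opens.mem_iSup.2 ⟨k, hk, hx.2⟩
    · intro k l
      have h1 := congrFun (congrArg (fun t => t.1.2) (h k l)) i
      have hle : (V k ⊓ U i) ⊓ (V l ⊓ U i) ≤ (V k ⊓ V l) ⊓ U i :=
        le_inf (le_inf (inf_le_left.trans inf_le_left) (inf_le_right.trans inf_le_left))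
          (inf_le_left.trans inf_le_right)
      have h2 := congrArg (res M hle) h1
      exact ((res_res _ hle _).symm.trans h2).trans (res_res _ hle _)
  choose n hn using key
  refine ⟨⟨(m, n), ?_⟩, fun k => ?_⟩
  · intro i j W' hi hj h'
    refine sec_ext M fun x hx => ?_
    obtain ⟨k, hk⟩ := hW x (hi hx).1
    refine ⟨W' ⊓ V k, inf_le_left, ⟨hx, hk⟩, ?_⟩
    have h1 := (s k).2 i j (W' ⊓ V k)
      (le_inf inf_le_right (inf_le_left.trans (hi.trans inf_le_right)))
      (le_inf inf_le_right (inf_le_left.trans (hj.trans inf_le_right))) (inf_le_left.trans h')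
    rw [← hn i k, ← hn j k, ← hm k, res_res, res_res, res_res] at h1
    show res M _ (res M hi (n i) - res M hj (n j)) =
      res M _ (resF h' (c.c i j) • res M (hi.trans inf_le_left) m)
    rw [res_sub, res_smul, res_res, res_res, res_res, h1]
    exact congrArg (· • res M _ m) (resF_resF h' inf_le_left (c.c i j)).symm
  · apply Subtype.ext
    exact Prod.ext (hm k) (funext fun i => hn i k)

/-- The data of the sheaf `T_c M`. -/
def TcData (c : Cocycle U) (M : X.Modules) : SecData X where
  S V := TcSec c M V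
  grp _ := inferInstance
  mod _ := inferInstance
  r h p := TcRes c M h p
  r_self V h p := by
    apply Subtype.ext
    exact Prod.ext (res_self h _) (funext fun i => res_self _ _)
  r_r h h' p := by
    apply Subtype.ext
    exact Prod.ext (res_res h h' _) (funext fun i => res_res _ _ _)
  r_add h p q := by
    apply Subtype.ext
    exact Prod.ext (map_add _ _ _) (funext fun i => map_add _ _ _)
  r_smul h a p := by
    apply Subtype.ext
    refine Prod.ext (res_smul h a _) (funext fun i => ?_)
    refine (res_smul (inf_le_inf_right (U i) h) _ _).trans ?_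
    exact congrArg (· • res M (inf_le_inf_right (U i) h) (p.1.2 i))
      ((resF_resF _ _ a).trans (resF_resF h inf_le_left a).symm)
  loc p q h := tc_loc c M p q h
  glue V W hV hW s h := tc_glue c M V W hV hW s h

/-- The sheaf `T_c M`. -/
def TcObj (c : Cocycle U) (M : X.Modules) : X.Modules := (TcData c M).toMod

end M21
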