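import Pool.Agent.H.MP_21b43d_ag.T.Tc1
import Pool.Agent.H.MP_21b43d_ag.T.Abs

/-!
# M21: the functor `T_c`, its exactness and the exact sequence `0 → M → T_c M → M → 0`
-/

open CategoryTheory CategoryTheory.Limits AlgebraicGeometry TopologicalSpace

noncomputable section

namespace M21

variable {X : Scheme.{0}} {ι : Type} {U : ι → X.Opens} (c : Cocycle U)

section sections

variable {c} {M N : X.Modules}

/-- first component of a section of `T_c M` -/
def tcFst {V : X.Opens} (p : Γ(TcObj c M, V)) : Γ(M, V) := (show TcSec c M V from p).1.1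

/-- the other components of a section of `T_c M` -/
def tcSnd {V : X.Opens} (p : Γ(TcObj c M, V)) (i : ι) : Γ(M, V ⊓ U i) :=
  (show TcSec c M V from p).1.2 i

theorem tc_rel {V : X.Opens} (p : Γ(TcObj c M, V)) (i j : ι) (W : X.Opens) (hi : W ≤ V ⊓ U i)
    (hj : W ≤ V ⊓ U j) (h : W ≤ U i ⊓ U j) :
    res M hi (tcSnd p i) - res M hj (tcSnd p j) =
      resF h (c.c i j) • res M (hi.trans inf_le_left) (tcFst p) :=
  (show TcSec c M V from p).2 i j W hi hj h

/-- construct a section of `T_c M` -/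
def tcMk (c : Cocycle U) {V : X.Opens} (m : Γ(M, V)) (n : ∀ i, Γ(M, V ⊓ U i))
    (h : ∀ (i j : ι) (W : X.Opens) (hi : W ≤ V ⊓ U i) (hj : W ≤ V ⊓ U j) (h : W ≤ U i ⊓ U j),
      res M hi (n i) - res M hj (n j) = resF h (c.c i j) • res M (hi.trans inf_le_left) m) :
    Γ(TcObj c M, V) :=
  show TcSec c M V from ⟨(m, n), h⟩

theorem tcFst_mk {V : X.Opens} (m : Γ(M, V)) (n : ∀ i, Γ(M, V ⊓ U i)) (h) :
    tcFst (tcMk c m n h) = m := rfl

theorem tcSnd_mk {V : X.Opens} (m : Γ(M, V)) (n : ∀ i, Γ(M, V ⊓ U i)) (h) (i : ι) :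
    tcSnd (tcMk c m n h) i = n i := rfl

theorem tc_ext {V : X.Opens} {p q : Γ(TcObj c M, V)} (h1 : tcFst p = tcFst q)
    (h2 : ∀ i, tcSnd p i = tcSnd q i) : p = q :=
  Subtype.ext (Prod.ext h1 (funext h2))

theorem tcFst_add {V : X.Opens} (p q : Γ(TcObj c M, V)) : tcFst (p + q) = tcFst p + tcFst q := rfl

theorem tcSnd_add {V : X.Opens} (p q : Γ(TcObj c M, V)) (i : ι) :
    tcSnd (p + q) i = tcSnd p i + tcSnd q i := rfl

theorem tcFst_zero {V : X.Opens} : tcFst (0 : Γ(TcObj c M, V)) = 0 := rfl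

theorem tcSnd_zero {V : X.Opens} (i : ι) : tcSnd (0 : Γ(TcObj c M, V)) i = 0 := rfl

theorem tcFst_smul {V : X.Opens} (a : Γ(X, V)) (p : Γ(TcObj c M, V)) :
    tcFst (a • p) = a • tcFst p := rfl

theorem tcSnd_smul {V : X.Opens} (a : Γ(X, V)) (p : Γ(TcObj c M, V)) (i : ι) :
    tcSnd (a • p) i = resF (inf_le_left : V ⊓ U i ≤ V) a • tcSnd p i := rfl

theorem tcFst_res {V W : X.Opens} (h : W ≤ V) (p : Γ(TcObj c M, V)) :
    tcFst (res (TcObj c M) h p) = res M h (tcFst p) := rfl

theorem tcSnd_res {V W : X.Opens} (h : W ≤ V) (p : Γ(TcObj c M, V)) (i : ι) :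
    tcSnd (res (TcObj c M) h p) i = res M (inf_le_inf_right (U i) h) (tcSnd p i) := rfl

theorem app_smul' (φ : M ⟶ N) {V : X.Opens} (a : Γ(X, V)) (s : Γ(M, V)) :
    φ.app V (a • s) = a • φ.app V s := Scheme.Modules.Hom.app_smul φ a s

end sections

/-- the map on sections of `T_c` -/
def tcMapSec {M N : X.Modules} (φ : M ⟶ N) (V : X.Opens) (p : Γ(TcObj c M, V)) :
    Γ(TcObj c N, V) :=
  tcMk c (φ.app V (tcFst p)) (fun i => φ.app _ (tcSnd p i)) (by
    intro i j W hi hj h
    rw [← app_res, ← app_res, ← app_sub, tc_rel p i j W hi hj h, app_smul', app_res])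

/-- `T_c` on morphisms -/
def tcMap {M N : X.Modules} (φ : M ⟶ N) : TcObj c M ⟶ TcObj c N :=
  mkHom (tcMapSec c φ)
    (fun V s t => tc_ext (app_add φ _ _) fun i => app_add φ _ _)
    (fun V r s => tc_ext (app_smul' φ _ _) fun i => app_smul' φ _ _)
    (fun {V W} h s => tc_ext (app_res φ _ _) fun i => app_res φ _ _)

theorem tcMap_app {M N : X.Modules} (φ : M ⟶ N) (V : X.Opens) (p : Γ(TcObj c M, V)) :
    (tcMap c φ).app V p = tcMapSec c φ V p := rfl

theorem tcFst_map {M N : X.Modules} (φ : M ⟶ N) (V : X.Opens) (p : Γ(TcObj c M, V)) :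
    tcFst ((tcMap c φ).app V p) = φ.app V (tcFst p) := rfl

theorem tcSnd_map {M N : X.Modules} (φ : M ⟶ N) (V : X.Opens) (p : Γ(TcObj c M, V)) (i : ι) :
    tcSnd ((tcMap c φ).app V p) i = φ.app _ (tcSnd p i) := rfl

/-- the functor `T_c` -/
def tcFunctor : X.Modules ⥤ X.Modules where
  obj M := TcObj c M
  map φ := tcMap c φ
  map_id M := hom_ext_app fun V p => tc_ext rfl fun i => rfl
  map_comp φ ψ := hom_ext_app fun V p => tc_ext rfl fun i => rfl

instance : (tcFunctor c).Additive where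
  map_add {M N φ ψ} := hom_ext_app fun V p => tc_ext rfl fun i => rfl

/-- A section of `T_c M` over an open contained in `U i0` from two sections of `M`. -/
def tcLoc {M : X.Modules} {V : X.Opens} (i0 : ι) (hV : V ≤ U i0) (m n : Γ(M, V)) :
    Γ(TcObj c M, V) :=
  tcMk c m (fun i => res M inf_le_left n +
    resF (le_inf inf_le_right (inf_le_left.trans hV) : V ⊓ U i ≤ U i ⊓ U i0) (c.c i i0) •
      res M (inf_le_left : V ⊓ U i ≤ V) m) (by
    intro i j W hi hj h
    have hij := c.add i j i0 W h (le_inf (hj.trans inf_le_right) (hj.trans (inf_le_left.trans hV)))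
      (le_inf (hi.trans inf_le_right) (hi.trans (inf_le_left.trans hV)))
    rw [res_add, res_add, res_smul, res_smul]
    simp only [res_res]
    have e1 : X.presheaf.map (homOfLE hi).op
        (resF (le_inf inf_le_right (inf_le_left.trans hV) : V ⊓ U i ≤ U i ⊓ U i0) (c.c i i0)) =
        resF (le_inf (hi.trans inf_le_right) (hi.trans (inf_le_left.trans hV))) (c.c i i0) :=
      resF_resF _ _ _
    have e2 : X.presheaf.map (homOfLE hj).op
        (resF (le_inf inf_le_right (inf_le_left.trans hV) : V ⊓ U j ≤ U j ⊓ U i0) (c.c j i0)) =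
        resF (le_inf (hj.trans inf_le_right) (hj.trans (inf_le_left.trans hV))) (c.c j i0) :=
      resF_resF _ _ _
    rw [e1, e2, ← hij, add_smul]
    abel)

theorem tcLoc_eq {M : X.Modules} {V : X.Opens} (i0 : ι) (hV : V ≤ U i0)
    (p : Γ(TcObj c M, V)) :
    p = tcLoc c i0 hV (tcFst p) (res M (le_inf le_rfl hV) (tcSnd p i0)) := by
  refine tc_ext rfl fun i => ?_
  have h := tc_rel p i i0 (V ⊓ U i) le_rfl (le_inf inf_le_left (inf_le_left.trans hV))
    (le_inf inf_le_right (inf_le_left.trans hV))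
  show tcSnd p i = res M inf_le_left (res M (le_inf le_rfl hV) (tcSnd p i0)) +
    resF (le_inf inf_le_right (inf_le_left.trans hV) : V ⊓ U i ≤ U i ⊓ U i0) (c.c i i0) •
      res M (inf_le_left : V ⊓ U i ≤ V) (tcFst p)
  rw [← h, res_res, res_self]
  abel

theorem tcMap_loc {M N : X.Modules} (φ : M ⟶ N) {V : X.Opens} (i0 : ι) (hV : V ≤ U i0)
    (m n : Γ(M, V)) :
    (tcMap c φ).app V (tcLoc c i0 hV m n) = tcLoc c i0 hV (φ.app V m) (φ.app V n) := by
  refine tc_ext rfl fun i => ?_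
  show φ.app _ (res M inf_le_left n + resF _ (c.c i i0) • res M _ m) =
    res N inf_le_left (φ.app V n) + resF _ (c.c i i0) • res N _ (φ.app V m)
  rw [app_add, app_smul', app_res, app_res]

/-- the inclusion -/
def tcI : 𝟭 X.Modules ⟶ tcFunctor c where
  app M := mkHom (M := M) (N := TcObj c M)
    (fun V s => tcMk c 0 (fun i => res M inf_le_left s) (by
      intro i j W hi hj h
      rw [res_res, res_res, res_zero, smul_zero, sub_self]))
    (fun V s t => tc_ext (add_zero _).symm fun i => res_add _ _ _)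
    (fun V r s => tc_ext (smul_zero _).symm fun i => res_smul _ _ _)
    (fun {V W} h s => tc_ext (res_zero _).symm fun i => (res_res _ _ _).trans (res_res _ _ _).symm)
  naturality M N φ := hom_ext_app fun V s =>
    tc_ext (app_zero φ).symm fun i => (app_res φ _ _).symm

/-- the projection -/
def tcP : tcFunctor c ⟶ 𝟭 X.Modules where
  app M := mkHom (M := TcObj c M) (N := M) (fun V p => tcFst p) (fun V s t => rfl)
    (fun V r s => rfl) (fun {V W} h s => rfl)
  naturality M N φ := hom_ext_app fun V s => rfl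

theorem tcI_fst (M : X.Modules) {V : X.Opens} (s : Γ(M, V)) :
    tcFst ((tcI c).app M |>.app V s) = 0 := rfl

theorem tcI_snd (M : X.Modules) {V : X.Opens} (s : Γ(M, V)) (i : ι) :
    tcSnd ((tcI c).app M |>.app V s) i = res M inf_le_left s := rfl

theorem tcP_app (M : X.Modules) {V : X.Opens} (p : Γ(TcObj c M, V)) :
    ((tcP c).app M).app V p = tcFst p := rfl

theorem tc_zero (M : X.Modules) : (tcI c).app M ≫ (tcP c).app M = 0 :=
  hom_ext_app fun V s => rfl

variable (hU : ∀ x : X, ∃ i, x ∈ U i)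

include hU

theorem tc_shortExact (M : X.Modules) :
    (ShortComplex.mk ((tcI c).app M) ((tcP c).app M) (tc_zero c M)).ShortExact := by
  have h1 : Mono ((tcI c).app M) := by
    refine mono_of_injective _ fun V s t hst => sec_ext M fun x hx => ?_
    obtain ⟨i, hi⟩ := hU x
    exact ⟨V ⊓ U i, inf_le_left, ⟨hx, hi⟩, congrArg (fun p => tcSnd p i) hst⟩
  have h2 : Epi ((tcP c).app M) := by
    refine epi_of_locSurj _ fun V s x hx => ?_
    obtain ⟨i, hi⟩ := hU x
    exact ⟨V ⊓ U i, inf_le_left, ⟨hx, hi⟩, tcLoc c i inf_le_right (res M inf_le_left s) 0, rfl⟩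
  refine ShortComplex.ShortExact.mk' ?_ h1 h2
  rw [exact_iff_lift]
  intro V p hp x hx
  obtain ⟨i0, hi0⟩ := hU x
  have hp' : tcFst p = 0 := hp
  refine ⟨V ⊓ U i0, inf_le_left, ⟨hx, hi0⟩, tcSnd p i0, tc_ext ?_ fun i => ?_⟩
  · show (0 : Γ(M, V ⊓ U i0)) = res M inf_le_left (tcFst p)
    rw [hp', res_zero]
  · have h := tc_rel p i0 i ((V ⊓ U i0) ⊓ U i) inf_le_left
      (le_inf (inf_le_left.trans inf_le_left) inf_le_right)
      (le_inf (inf_le_left.trans inf_le_right) inf_le_right)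
    rw [hp', res_zero, smul_zero, sub_eq_zero] at h
    exact h

theorem tc_preservesHomology : (tcFunctor c).PreservesHomology := by
  refine ((tcFunctor c).exact_tfae.out 1 2).1 fun S hS => ?_
  rw [exact_iff_lift] at hS ⊢
  intro V p hp x hx
  have hp1 : S.g.app V (tcFst p) = 0 := congrArg tcFst hp
  have hp2 : ∀ i, S.g.app _ (tcSnd p i) = 0 := fun i => congrArg (fun q => tcSnd q i) hp
  obtain ⟨i0, hi0⟩ := hU x
  obtain ⟨V1, hV1, hx1, m, hm⟩ := hS V (tcFst p) hp1 x hx
  obtain ⟨V2, hV2, hx2, n, hn⟩ := hS _ (tcSnd p i0) (hp2 i0) x ⟨hx, hi0⟩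
  refine ⟨V1 ⊓ V2, inf_le_left.trans hV1, ⟨hx1, hx2⟩,
    tcLoc c i0 (inf_le_right.trans (hV2.trans inf_le_right)) (res _ inf_le_left m)
      (res _ inf_le_right n), ?_⟩
  rw [tcLoc_eq c i0 (inf_le_right.trans (hV2.trans inf_le_right))
    (res ((S.map (tcFunctor c)).X₂) (inf_le_left.trans hV1) p)]
  refine (tcMap_loc c S.f i0 _ _ _).trans ?_
  rw [app_res, app_res, hm, hn, res_res, res_res]
  exact congrArg (tcLoc c i0 _ _) (res_res (M := S.X₂) _ _ _).symm

/-- The self-extension `T_c`. -/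
def tcExt : SelfExt X.Modules where
  T := tcFunctor c
  add := inferInstance
  hom := tc_preservesHomology c hU
  i := tcI c
  p := tcP c
  zero := tc_zero c
  exact := tc_shortExact c hU

end M21
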